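import Pool.Agent.RCH.GdFin
import Pool.Agent.RCH.GdGen
import Pool.Agent.RCH.GdEx2Sym

/-!
# Symmetries permuting the linear spaces: all homologically trivial combinations

Real Chow groups: the definitions are in `Pool/Agent/RCH/Defs.lean` (algebraic cycles on `X^N`,
rational equivalence, smash-nilpotence), `Pool/Agent/RCH/Aut.lean` (`MSym`, monomial symmetries),
`Pool/Agent/RCH/AutBox.lean` (`tr1`, their action; `boxC`, the product of `N` cycles),
`Pool/Agent/RCH/KpDefs.lean` (`hyp`, `cx`, `planesPoly`, `spaceIdeal`) and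
`Pool/Agent/RCH/GdAll.lean` (`AllNilpotent`).

A symmetry of `X` gives a symmetry of `X × X` which acts on the first factor only; it preserves
rational equivalence. By the theorem on linear spaces (`LinearSpacesOnHypersurfaces`) a multiple of
`d ∑ a_k l_k × l_k - L × L`, `d = n + 1`, `L = ∑ a_k l_k`, is rationally equivalent to zero on `X × X`.
The difference of this relation and of its image is the relation in the theorem.

If two symmetries act on the `t` linear spaces as the dihedral group acts on the vertices of the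
regular polygon, put `L = ∑ l_k`, `z_k = t l_k - L`: the sums `∑_u z_(u + s) × z_u` and
`∑_u z_(s - u) × z_u` are torsion modulo rational equivalence, for all `s` modulo `t`. For a `t`-th
root of unity `ω` put `Z_ω = ∑ ω ^ k z_k` (complex coefficients). Then `Z_1 = 0`, and a product of such
classes on `X^N` is zero if two of the factors have equal or inverse `ω`. As `t` is odd, this is so
for all products without factor `Z_1` if `N > (t - 1) / 2`. So all products of `(t + 1) / 2` of the
`z_k` are torsion.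

Rows by helpers 14, 15, 16, 41, 47, 64, 81, 88 and 98, with the files of
`LinearSpacesOnHypersurfaces`.
-/

set_option autoImplicit false

open MvPolynomial

namespace Pool.Agent.Results.MP_bf8edd_ag.DihedralHypersurfaces

open Pool.Agent.RCH Pool.Agent.RCH.Kp Pool.Agent.RCH.Gd

/-- The conditions on the forms: for `i ≤ r`, `g_i` is a form of degree `n` in `x_(2i+1), …, x_(2r+3)`
which does not vanish at the point with `x_(2i+2) = 1` and other coordinates zero, if `i < r`, and at
the points with `x_(2r+2) = 1`, `x_(2r+3) = b_k` and other coordinates zero, if `i = r`, and `P` is a form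
of degree `n` in all coordinates with `P(1, 0, …, 0) ≠ 0`. -/
def Admissible (r n : ℕ) {t : ℕ} (b : Fin t → ℂ) (g : ℕ → MvPolynomial (Fin (2 * r + 5)) ℂ)
    (P : MvPolynomial (Fin (2 * r + 5)) ℂ) : Prop :=
  (∀ i ≤ r, (g i).IsHomogeneous n) ∧
  (∀ i ≤ r, ∀ j ∈ (g i).vars, 2 * i + 1 ≤ (j : ℕ) ∧ (j : ℕ) ≤ 2 * r + 3) ∧
  (∀ i < r, eval (Pi.single (cx r (2 * i + 2)) 1) (g i) ≠ 0) ∧
  (∀ k, eval (Pi.single (cx r (2 * r + 2)) 1 + Pi.single (cx r (2 * r + 3)) (b k)) (g r) ≠ 0) ∧
  P.IsHomogeneous n ∧ eval (Pi.single (cx r 0) 1) P ≠ 0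

/-- The forms of the smooth examples: `g_i = x_(2i+2) ^ n` for `i < r` and
`g_r = (x_(2r+2) x_(2r+3)) ^ ((t-1)/2) (x_(2r+2) ^ t + x_(2r+3) ^ t) ^ (a-1)`. -/
noncomputable def exForm (r n t a i : ℕ) : MvPolynomial (Fin (2 * r + 5)) ℂ :=
  if i < r then X (cx r (2 * i + 2)) ^ n else
    (X (cx r (2 * r + 2)) * X (cx r (2 * r + 3))) ^ ((t - 1) / 2) *
      (X (cx r (2 * r + 2)) ^ t + X (cx r (2 * r + 3)) ^ t) ^ (a - 1)

/-- Let `r ≥ 0` and `n ≥ 2`. The coordinates of the projective space of dimension `2r + 4` are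
`x_0, …, x_(2r+4)` (`cx r j` is the index of `x_j`).

Let `b_0, …, b_(t-1)` be different complex numbers, let `a_0, …, a_(t-1) ≥ 1` be integers of sum
`n + 1`, let `g_i` for `i ≤ r` be a form of degree `n` in `x_(2i+1), …, x_(2r+3)` which does not vanish
at the point with `x_(2i+2) = 1` and other coordinates zero, if `i < r`, and at the points with
`x_(2r+2) = 1`, `x_(2r+3) = b_k` and other coordinates zero, if `i = r`, let `P` be a form of degree
`n` in all coordinates with `P(1, 0, …, 0) ≠ 0`, and let `X` be the hypersurface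
`∑_(i ≤ r) (x_(2i) x_(2i+1) ^ n + x_(2i+1) g_i) + ∏ (x_(2r+3) - b_k x_(2r+2)) ^ (a_k) +
x_(2r+4) P = 0` of degree `n + 1` and dimension `2r + 3`. Let `l_k` be the linear space
`x_1 = x_3 = … = x_(2r+1) = x_(2r+4) = 0`, `x_(2r+3) = b_k x_(2r+2)` of dimension `r + 1` on `X`.

If a monomial symmetry of `X` maps `l_k` to `l_(π(k))` for all `k`, for a permutation `π` with
`a_(π(k)) = a_k`, then `n ^ (r + 1) (n + 1) ∑ a_k (l_(π(k)) × l_k - l_k × l_k)` is rationally
equivalent to zero on `X × X`. Hence (1) if `π` is the transposition of `j` and `k`, then `l_j - l_k` is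
smash-nilpotent, (2) if `t` is odd, all `a_k` are equal and two monomial symmetries of `X` map `l_k` to
`l_(k+1)` and to `l_(-k)` (indices modulo `t`), then every combination `z` of degree zero of the `l_k` is
smash-nilpotent; moreover a nonzero multiple of `z_1 × ⋯ × z_N`, `N = (t + 1) / 2`, is rationally
equivalent to zero on `X^N` for all such combinations `z_1, …, z_N`. (3) Let `t ≥ 3` be odd,
`t a = n + 1`, `ζ` a primitive `t`-th root of unity. The hypersurface with `b_k = ζ ^ k`, `a_k = a`,
`g_i = x_(2i+2) ^ n` for `i < r`, `g_r = (x_(2r+2) x_(2r+3)) ^ ((t-1)/2)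
(x_(2r+2) ^ t + x_(2r+3) ^ t) ^ (a-1)`, `P = x_0 ^ n + x_(2r+4) ^ n` is smooth, and the conclusion of
(2) holds for it. -/
theorem result (r n : ℕ) (hn : 2 ≤ n) :
    (∀ (t : ℕ) (b : Fin t → ℂ) (a : Fin t → ℕ) (g : ℕ → MvPolynomial (Fin (2 * r + 5)) ℂ)
      (P F : MvPolynomial (Fin (2 * r + 5)) ℂ), Function.Injective b → (∀ k, 1 ≤ a k) →
      ∑ k, a k = n + 1 → Admissible r n b g P → F = planesPoly r n b a g P →
      ∃ l : Fin t → Pt (hyp F) 1, (∀ k, (l k).I = spaceIdeal r (b k)) ∧ Function.Injective l ∧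
        (∀ (γ : MSym (hyp F)) (π : Equiv.Perm (Fin t)),
          (∀ k, tr1 γ (l k) = l (π k)) → (∀ k, a (π k) = a k) →
          (n ^ (r + 1) * (n + 1)) • ∑ k, a k •
            (box (hyp F) ![l (π k), l k] - box (hyp F) ![l k, l k]) ∈ RatZero (hyp F) 2 ∧
          ∀ j k, π = Equiv.swap j k →
            SmashNilpotent (hyp F) (Finsupp.single (l j) 1 - Finsupp.single (l k) 1)) ∧
        (Odd t → (∀ j k, a j = a k) → ∀ γ δ : MSym (hyp F),
          (∀ j k : Fin t, (j : ℕ) ≡ k + 1 [MOD t] → tr1 γ (l k) = l j) →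
          (∀ j k : Fin t, (j : ℕ) + k ≡ 0 [MOD t] → tr1 δ (l k) = l j) →
          AllNilpotent (hyp F) l)) ∧
    (∀ (t a : ℕ) (ζ : ℂ) (F : MvPolynomial (Fin (2 * r + 5)) ℂ), Odd t → 3 ≤ t → t * a = n + 1 →
      IsPrimitiveRoot ζ t →
      F = planesPoly r n (fun k : Fin t => ζ ^ (k : ℕ)) (fun _ => a) (exForm r n t a)
        (X (cx r 0) ^ n + X (cx r (2 * r + 4)) ^ n) →
      (∀ v : Fin (2 * r + 5) → ℂ, v ≠ 0 → ∃ j, eval v (pderiv j F) ≠ 0) ∧
      ∃ l : Fin t → Pt (hyp F) 1, (∀ k, (l k).I = spaceIdeal r (ζ ^ (k : ℕ))) ∧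
        AllNilpotent (hyp F) l) := by
  refine ⟨?_, ?_⟩
  · rintro t b a g P F hb ha hsum ⟨hg, hgv, hge, hgb, hP, hPc⟩ rfl
    obtain ⟨m, rfl⟩ : ∃ m, n = m + 2 := ⟨n - 2, by omega⟩
    set S : PlData := ⟨r, m, t, b, a, hb, ha, hsum, g, hg, hgv, hge, hgb, P, hP, hPc⟩ with hS
    refine ⟨S.pl, S.pl_I_eq, S.pl_injective, fun γ π hπ haπ => ⟨rel_act S γ π hπ haπ, ?_⟩,
      fun ht ha γ δ hγ hδ => act_nil S ht ha γ δ hγ hδ⟩
    rintro j k rfl
    exact swap_nil S γ hπ haπ
  rintro t a ζ F ⟨p, rfl⟩ ht3 hta hζ rfl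
  have hp : 1 ≤ p := by omega
  have ha : 1 ≤ a := by
    rcases Nat.eq_zero_or_pos a with h | h
    · rw [h, mul_zero] at hta
      omega
    · exact h
  have hex : exForm r n (2 * p + 1) a = fun i => if i < r then X (cx r (2 * i + 2)) ^ n else
      (X (cx r (2 * r + 2)) * X (cx r (2 * r + 3))) ^ p *
        (X (cx r (2 * r + 2)) ^ (2 * p + 1) + X (cx r (2 * r + 3)) ^ (2 * p + 1)) ^ (a - 1) := by
    funext i
    rw [exForm, show (2 * p + 1 - 1) / 2 = p by omega]
  rw [hex]
  have hdeg : p * (1 + 1) + (2 * p + 1) * (a - 1) = n := by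
    obtain ⟨b, rfl⟩ : ∃ b, a = b + 1 := ⟨a - 1, by omega⟩
    rw [Nat.add_sub_cancel]
    have h : (2 * p + 1) * (b + 1) = (2 * p + 1) * b + (2 * p + 1) := by ring
    omega
  refine ⟨fun v hv => ?_, ?_⟩
  · by_contra h
    push Not at h
    exact hv (ex2_smooth r n hp ha hta.symm hζ v h)
  · refine rootData_nil r n (2 * p + 1) a hn ⟨p, rfl⟩ hζ hta _ _ ?_ ?_ ?_ ?_ ?_
      ?_ (ex2_rot r n hp ha hta.symm hζ) (ex2_swap r n hp ha hta.symm hζ)
    · intro i _
      split_ifs
      · have h := (isHomogeneous_X ℂ (cx r (2 * i + 2))).pow n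
        rwa [one_mul] at h
      · have h1 := ((isHomogeneous_X ℂ (cx r (2 * r + 2))).mul
          (isHomogeneous_X ℂ (cx r (2 * r + 3)))).pow p
        have h2 := (isHomogeneous_X ℂ (cx r (2 * r + 2))).pow (2 * p + 1)
        have h3 := (isHomogeneous_X ℂ (cx r (2 * r + 3))).pow (2 * p + 1)
        rw [one_mul] at h2 h3
        have h4 := h1.mul ((h2.add h3).pow (a - 1))
        rwa [show (1 + 1) * p + (2 * p + 1) * (a - 1) = n by omega] at h4
    · intro i hi j hj
      beta_reduce at hj
      split_ifs at hj with h1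
      · have h := vars_pow _ _ hj
        rw [vars_X, Finset.mem_singleton] at h
        rw [h, cx_val r (by omega)]
        omega
      · have h2 : j = cx r (2 * r + 2) ∨ j = cx r (2 * r + 3) := by
          rcases Finset.mem_union.1 (vars_mul _ _ hj) with h | h
          · have h := vars_mul _ _ (vars_pow _ _ h)
            rw [vars_X, vars_X, Finset.mem_union, Finset.mem_singleton,
              Finset.mem_singleton] at h
            exact h
          · rcases Finset.mem_union.1 (vars_add_subset _ _ (vars_pow _ _ h)) with h | h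
            · have h := vars_pow _ _ h
              rw [vars_X, Finset.mem_singleton] at h
              exact Or.inl h
            · have h := vars_pow _ _ h
              rw [vars_X, Finset.mem_singleton] at h
              exact Or.inr h
        rcases h2 with h | h
        · rw [h, cx_val r (by omega)]
          omega
        · rw [h, cx_val r (by omega)]
          omega
    · intro i hi
      rw [if_pos hi, map_pow, eval_X, Pi.single_eq_same, one_pow]
      exact one_ne_zero
    · intro k
      rw [if_neg (lt_irrefl r)]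
      simp only [map_mul, map_pow, map_add, eval_X, Pi.add_apply, Pi.single_eq_same,
        Pi.single_eq_of_ne (cx_ne r (show 2 * r + 2 < 2 * r + 5 by omega)
          (show 2 * r + 3 < 2 * r + 5 by omega) (by omega)),
        Pi.single_eq_of_ne (cx_ne r (show 2 * r + 3 < 2 * r + 5 by omega)
          (show 2 * r + 2 < 2 * r + 5 by omega) (by omega)), add_zero, zero_add, one_mul, one_pow]
      refine mul_ne_zero (pow_ne_zero _ (pow_ne_zero _ (hζ.ne_zero (by omega))))
        (pow_ne_zero _ ?_)
      rw [← pow_mul, mul_comm, pow_mul, hζ.pow_eq_one, one_pow]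
      norm_num
    · have h := (isHomogeneous_X ℂ (cx r 0)).pow n
      have h' := (isHomogeneous_X ℂ (cx r (2 * r + 4))).pow n
      rw [one_mul] at h h'
      exact h.add h'
    · rw [map_add, map_pow, map_pow, eval_X, eval_X, Pi.single_eq_same,
        Pi.single_eq_of_ne (cx_ne r (by omega) (by omega) (by omega)), one_pow,
        zero_pow (by omega), add_zero]
      exact one_ne_zero

end Pool.Agent.Results.MP_bf8edd_ag.DihedralHypersurfaces
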