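import Pool.Agent.RCH.KpFin
import Pool.Agent.RCH.KpSmooth

/-!
# Linear spaces on hypersurfaces of every odd dimension

Real Chow groups: the definitions are in `Pool/Agent/RCH/Defs.lean` (algebraic cycles on `X^N`,
rational equivalence, exterior powers, smash-nilpotence) and in `Pool/Agent/RCH/KpDefs.lean`
(`hyp`, `cx`, `planesPoly`, `spaceIdeal`).

Put `n = d - 1` and let `f_i = ∑_(l ≥ i) (x_(2l) x_(2l+1) ^ n + x_(2l+1) g_l) + φ`, where `φ` is the
product of the powers of the linear forms `x_(2r+3) - b_k x_(2r+2)`; the equation is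
`f_0 + x_(2r+4) P`. Let `D_i` be the variety of the pairs of points with `f_i = 0`,
`x_(2l+1) = 0` for `l < i`, `x_(2r+4) = 0`, whose coordinates with index `≥ 2i` are proportional, let
`E_i` be the sum of the two products of `f_i = 0`, `x_(2l+1) = 0` for `l < i`, `x_(2r+4) = 0` and of
the linear space of the coordinates `x_0, x_2, …, x_(2i)`, and let `D_(r+1)` be `∑ a_k l_k × l_k`,
`L = ∑ a_k l_k`, `R_i = D_i - E_i - D_(i+1)`.

* `(d - 1) R_0` is rationally equivalent to zero (the fibre square, without the diagonal, of the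
  projection from the point `(1 : 0 : … : 0)`, and the diagonal).
* `R_i + (d - 1) R_(i+1)` is rationally equivalent to zero for `i < r`: it is the divisor of
  `(x_(2i+2) y_(2i+1) - y_(2i+2) x_(2i+1)) / (x_(2i+1) y_(2i+1))` on the closure of the pairs on
  `f_i = 0`, `x_(2l+1) = 0` for `l < i`, `x_(2r+4) = 0` whose coordinates with index `2i + 1` or
  `≥ 2i + 3` are proportional.
* `R_r + d D_(r+1) - L × L` is rationally equivalent to zero (a cone over a divisor for `r = 0`).

Rows by helpers 9, 14, 15, 41, 64, 65, 72, 88 and 98, with the files of `LinesOnThreefolds` (the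
case `r = 0`) by helpers 9, 15, 16, 41, 64, 73, 88, 98 and 99.
-/

set_option autoImplicit false

open MvPolynomial

namespace Pool.Agent.Results.MP_bf8edd_ag.LinearSpacesOnHypersurfaces

open Pool.Agent.RCH Pool.Agent.RCH.Kp

/-- Let `r ≥ 0` and `n ≥ 2`. The coordinates of the projective space of dimension `2r + 4` are
`x_0, …, x_(2r+4)` (`cx r j` is the index of `x_j`).

(1) Let `b_1, …, b_t` be different complex numbers, let `a_1, …, a_t ≥ 1` be integers of sum `n + 1`,
let `g_i` for `i ≤ r` be a form of degree `n` in `x_(2i+1), …, x_(2r+3)` which does not vanish at the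
point with `x_(2i+2) = 1` and other coordinates zero, if `i < r`, and at the points with
`x_(2r+2) = 1`, `x_(2r+3) = b_k` and other coordinates zero, if `i = r`, let `P` be a form of degree
`n` in all coordinates with `P(1, 0, …, 0) ≠ 0`, and let `X` be the hypersurface
`∑_(i ≤ r) (x_(2i) x_(2i+1) ^ n + x_(2i+1) g_i) + ∏ (x_(2r+3) - b_k x_(2r+2)) ^ (a_k) +
x_(2r+4) P = 0` of degree `n + 1` and dimension `2r + 3`. Let `l_k` be the linear space
`x_1 = x_3 = … = x_(2r+1) = x_(2r+4) = 0`, `x_(2r+3) = b_k x_(2r+2)` of dimension `r + 1` on `X`. Then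
`n ^ (r + 1) ∑_{j < k} a_j a_k (l_j - l_k) × (l_j - l_k)` is rationally equivalent to zero on
`X × X`. If `t = 2`, then `l_1 - l_2` is smash-nilpotent.

(2) The hypersurface with `t = 2`, `b = (1, -1)`, `a = (1, n)`, `g_i = x_(2i+2) ^ n`,
`P = x_0 ^ n + x_(2r+4) ^ n`, one of those in (1), is smooth. -/
theorem result (r n : ℕ) (hn : 2 ≤ n) :
    (∀ (t : ℕ) (b : Fin t → ℂ) (a : Fin t → ℕ) (g : ℕ → MvPolynomial (Fin (2 * r + 5)) ℂ)
      (P : MvPolynomial (Fin (2 * r + 5)) ℂ), Function.Injective b → (∀ k, 1 ≤ a k) →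
      ∑ k, a k = n + 1 → (∀ i ≤ r, (g i).IsHomogeneous n) →
      (∀ i ≤ r, ∀ j ∈ (g i).vars, 2 * i + 1 ≤ (j : ℕ) ∧ (j : ℕ) ≤ 2 * r + 3) →
      (∀ i < r, eval (Pi.single (cx r (2 * i + 2)) 1) (g i) ≠ 0) →
      (∀ k, eval (Pi.single (cx r (2 * r + 2)) 1 + Pi.single (cx r (2 * r + 3)) (b k)) (g r) ≠ 0) →
      P.IsHomogeneous n → eval (Pi.single (cx r 0) 1) P ≠ 0 →
      ∃ l : Fin t → Pt (hyp (planesPoly r n b a g P)) 1,
        (∀ k, (l k).I = spaceIdeal r (b k)) ∧ Function.Injective l ∧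
        n ^ (r + 1) • ∑ j, ∑ k ∈ Finset.univ.filter (fun k => j < k),
          (a j * a k) • extPow (hyp (planesPoly r n b a g P))
            (Finsupp.single (l j) 1 - Finsupp.single (l k) 1) 2 ∈
              RatZero (hyp (planesPoly r n b a g P)) 2 ∧
        (t = 2 → ∀ j k, SmashNilpotent (hyp (planesPoly r n b a g P))
          (Finsupp.single (l j) 1 - Finsupp.single (l k) 1))) ∧
    (∀ v : Fin (2 * r + 5) → ℂ, v ≠ 0 → ∃ j,
      eval v (pderiv j (planesPoly r n ![1, -1] ![1, n] (fun i => X (cx r (2 * i + 2)) ^ n)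
        (X (cx r 0) ^ n + X (cx r (2 * r + 4)) ^ n))) ≠ 0) := by
  refine ⟨fun t b a g P hb ha hsum hg hgv hge hgb hP hPc => ?_, fun v hv => ?_⟩
  · obtain ⟨m, rfl⟩ : ∃ m, n = m + 2 := ⟨n - 2, by omega⟩
    set S : PlData := ⟨r, m, t, b, a, hb, ha, hsum, g, hg, hgv, hge, hgb, P, hP, hPc⟩ with hS
    exact ⟨S.pl, S.pl_I_eq, S.pl_injective, S.rel_squares, S.smash⟩
  · by_contra h
    push Not at h
    exact hv (planesPoly_smooth r n hn v h)

end Pool.Agent.Results.MP_bf8edd_ag.LinearSpacesOnHypersurfaces
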